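import Pool.Agent.H51.MFQ.All

/-! Quantisation of the Mishchenko-Fomenko subalgebra `F_a` for Lie algebras with an abelian
ideal `V` such that `stab ξ + V` depends only on the restriction of `ξ` to `V`. -/

set_option autoImplicit false

open Module

namespace Pool.Agent.H51.Old.AbelianIdeal

open Pool.MFQ

/-- Let `𝔤` be a finite dimensional complex Lie algebra and `V` an abelian ideal such that, for
generic `ξ` in the dual space (`dim 𝔤_ξ` and `dim (𝔤_ξ ∩ V)` minimal), `𝔤_ξ + V` depends only on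
the restriction of `ξ` to `V`. Then `F_a` has a quantisation for every generic `a`. -/
theorem result :
    ∀ (𝔤 : Type) [LieRing 𝔤] [LieAlgebra ℂ 𝔤] [FiniteDimensional ℂ 𝔤] (V : LieIdeal ℂ 𝔤),
      (∀ x ∈ V, ∀ y ∈ V, ⁅x, y⁆ = 0) →
      (∀ ξ ξ' : Dual ℂ 𝔤, Gen V ξ → Gen V ξ' → (∀ v ∈ V, ξ v = ξ' v) →
        stab ξ ⊔ V.toSubmodule = stab ξ' ⊔ V.toSubmodule) →
      ∀ a : Dual ℂ 𝔤, Gen V a →
        ∃ A : Subalgebra ℂ (UniversalEnvelopingAlgebra ℂ 𝔤), IsQuant a A :=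
  Pool.MFQ.all_main

end Pool.Agent.H51.Old.AbelianIdeal
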