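import Pool.Agent.H51.MFM.All

/-! Quantisation of the Mishchenko-Fomenko subalgebra `F_a` for metabelian Lie algebras and every
`a`, regular or not. -/

set_option autoImplicit false

open Module

namespace Pool.Agent.H51.Old.Metabelian

open Pool.MFQ

/-- Let `𝔤` be a finite dimensional complex Lie algebra with `[[𝔤, 𝔤], [𝔤, 𝔤]] = 0`. Then `F_a`
has a quantisation for every `a` in the dual space, regular or not. -/
theorem result :
    ∀ (𝔤 : Type) [LieRing 𝔤] [LieAlgebra ℂ 𝔤] [FiniteDimensional ℂ 𝔤],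
      (∀ x y z w : 𝔤, ⁅⁅x, y⁆, ⁅z, w⁆⁆ = 0) →
      ∀ a : Dual ℂ 𝔤, ∃ A : Subalgebra ℂ (UniversalEnvelopingAlgebra ℂ 𝔤), IsQuant a A :=
  Pool.MFM.all_meta

end Pool.Agent.H51.Old.Metabelian
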