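import Pool.Agent.H51.MFQ.All

/-! Quantisation of the Mishchenko-Fomenko subalgebra `F_a` for the Takiff algebra
`K ⊗ ℂ[ε] / (ε ^ 2)` of an arbitrary Lie algebra `K` and every regular `a`. -/

set_option autoImplicit false

open Module

namespace Pool.Agent.H51.Old.Takiff

open Pool.MFQ

/-- Let the finite dimensional complex Lie algebra `𝔤` be the direct sum of a subalgebra `K` and
an abelian ideal `V`, and let `ε : K → V` be a linear bijection with `[x, ε y] = ε [x, y]`, that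
is, `𝔤 = K ⊗ ℂ[ε] / (ε ^ 2)`. Then `F_a` has a quantisation for every regular `a`. -/
theorem result :
    ∀ (𝔤 : Type) [LieRing 𝔤] [LieAlgebra ℂ 𝔤] [FiniteDimensional ℂ 𝔤]
      (K : LieSubalgebra ℂ 𝔤) (V : LieIdeal ℂ 𝔤) (ε : K →ₗ[ℂ] 𝔤),
      (∀ x ∈ V, ∀ y ∈ V, ⁅x, y⁆ = 0) → IsCompl K.toSubmodule V.toSubmodule →
      Function.Injective ε → LinearMap.range ε = V.toSubmodule →
      (∀ x y : K, ⁅(x : 𝔤), ε y⁆ = ε ⁅x, y⁆) →
      ∀ a : Dual ℂ 𝔤, IsReg a →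
        ∃ A : Subalgebra ℂ (UniversalEnvelopingAlgebra ℂ 𝔤), IsQuant a A := by
  intro 𝔤 _ _ _ K V ε h1 h2 h3 h4 h5 a ha
  obtain ⟨h7, h8⟩ := Pool.MFQ.all_tak 𝔤 K V ε ⟨h1, h2, h3, h4, h5⟩
  exact Pool.MFQ.all_main 𝔤 V h1 h7 a (h8 a ha)

end Pool.Agent.H51.Old.Takiff
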